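import Pool.Agent.W2helper12.SOS2.LemXa

/-!
# MP_ce7760_an, piece P19 : LemX
-/

set_option autoImplicit false

open MvPolynomial

namespace Pool.Agent.W2helper12.SOS2

open Pool.Agent.W2helper74.SOS
open Pool.Agent.W2helper19.SOS (EE_finite finrank_ker_add mem_EE VF mem_VF finrank_VF res_mem
  lev3 rs_mono finrank_map_mulLeft c0)
open Pool.Agent.W2helper12.SOS (res_lf res_X eval_res exists_rk le_mx pB1 pB2 pB3 pC2')

/-- a polynomial which vanishes where infinitely many linear forms of a pencil vanish -/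
theorem pencil {n : ℕ} (q : Pol n) (w₀ w₁ u₀ : Fin n → ℂ) (h00 : w₀ ⬝ᵥ u₀ = 1) (h10 : w₁ ⬝ᵥ u₀ = 0)
    (B : Set ℂ) (hB : B.Finite)
    (h : ∀ t, t ∉ B → ∀ x : Fin n → ℂ, w₀ ⬝ᵥ x + t * (w₁ ⬝ᵥ x) = 0 → w₁ ⬝ᵥ x ≠ 0 →
      eval x q = 0) (hw1 : w₁ ≠ 0) : q = 0 := by
  have h1 : lf w₁ * q = 0 := by
    apply MvPolynomial.funext
    intro x₀
    rw [map_mul, map_zero, eval_lf']
    by_cases hx : w₁ ⬝ᵥ x₀ = 0
    · rw [hx, zero_mul]
    have h2 : eval x₀ q = 0 := by
      let Q : Polynomial ℂ := aeval (fun k => Polynomial.C (x₀ k - (w₀ ⬝ᵥ x₀) * u₀ k) -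
        Polynomial.C ((w₁ ⬝ᵥ x₀) * u₀ k) * Polynomial.X) q
      have hQ : ∀ t : ℂ, Q.eval t = eval (fun k => x₀ k - (w₀ ⬝ᵥ x₀) * u₀ k -
          (w₁ ⬝ᵥ x₀) * u₀ k * t) q := by
        intro t
        have key : (Polynomial.aeval t).comp (aeval (R := ℂ) (fun k : Fin n =>
            (Polynomial.C (x₀ k - (w₀ ⬝ᵥ x₀) * u₀ k) -
            Polynomial.C ((w₁ ⬝ᵥ x₀) * u₀ k) * Polynomial.X : Polynomial ℂ))) =
            aeval (fun k => x₀ k - (w₀ ⬝ᵥ x₀) * u₀ k - (w₁ ⬝ᵥ x₀) * u₀ k * t) := by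
          apply MvPolynomial.algHom_ext
          intro k
          rw [AlgHom.comp_apply, aeval_X, aeval_X, map_sub, map_mul, Polynomial.aeval_C,
            Polynomial.aeval_C, Polynomial.aeval_X]
          rfl
        have h3 := DFunLike.congr_fun key q
        rw [AlgHom.comp_apply, Polynomial.coe_aeval_eq_eval, aeval_def (S₁ := ℂ),
          eval₂_eq_eval_map] at h3
        rw [h3]
        congr 1
        exact map_id _
      have hQ0 : Q = 0 := by
        apply Polynomial.eq_zero_of_infinite_isRoot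
        refine hB.infinite_compl.mono ?_
        intro t ht
        show Q.eval t = 0
        rw [hQ]
        have e1 : ∀ w : Fin n → ℂ, w ⬝ᵥ (fun k => x₀ k - (w₀ ⬝ᵥ x₀) * u₀ k -
            (w₁ ⬝ᵥ x₀) * u₀ k * t) = w ⬝ᵥ x₀ - (w₀ ⬝ᵥ x₀ + t * (w₁ ⬝ᵥ x₀)) * (w ⬝ᵥ u₀) := by
          intro w
          generalize w₀ ⬝ᵥ x₀ = α
          generalize w₁ ⬝ᵥ x₀ = β
          simp only [dotProduct, Finset.mul_sum, ← Finset.sum_sub_distrib]
          refine Finset.sum_congr rfl fun k _ => ?_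
          ring
        refine h t ht _ ?_ ?_
        · rw [e1, e1, h00, h10]
          ring
        · rw [e1, h10, mul_zero, sub_zero]
          exact hx
      have h4 := hQ (-(w₀ ⬝ᵥ x₀) / (w₁ ⬝ᵥ x₀))
      rw [hQ0, Polynomial.eval_zero] at h4
      rw [h4]
      congr 2
      funext k
      field_simp
      ring
    rw [h2, mul_zero]
  rcases mul_eq_zero.1 h1 with h2 | h2
  · exact absurd h2 (Pool.Agent.W2helper19.SOS.lf_ne_zero hw1)
  · exact h2

theorem lemX_core (j : ℕ) (d : Alg (j + 2)) (hj : 4 ≤ j) (k1 : mx d.V (j + 1) + 2 = mx d.V (j + 2))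
    (k2 : mx d.V j + 3 = mx d.V (j + 1)) (k3 : mx d.V (j - 1) + 4 = mx d.V j)
    (T : Matrix (Fin (j + 2)) (Fin j) ℂ) (w₀ w₁ : Fin (j + 2) → ℂ)
    (hw : LinearIndependent ℂ ![w₀, w₁]) (hT : T.rank = j) (h0 : Matrix.vecMul w₀ T = 0)
    (h1 : Matrix.vecMul w₁ T = 0) (hr : rk d.V T = mx d.V j)
    (hr' : rk d.V (T * emb (j - 1) j) = mx d.V (j - 1)) (hE : 5 ≤ rk d.E T) :
    ∃ c : Pol (j + 2), c ≠ 0 ∧ lf w₀ * c ∈ d.V ∧ lf w₁ * c ∈ d.V := by
  classical
  have := d.finV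
  have := d.finE
  obtain ⟨u₀, u₁, a00, a01, a10, a11, hdec⟩ := exists_dual T w₀ w₁ hw (by omega) h0 h1
  have hmax : ∀ S : Matrix (Fin (j + 2)) (Fin j) ℂ, rk d.V S ≤ rk d.V T := fun S => by
    rw [hr]
    exact le_mx d.V d.finV j S
  obtain ⟨U, hU⟩ : ∃ U, U = rs d.V T := ⟨_, rfl⟩
  have hUf : Module.Finite ℂ U := by rw [hU]; infer_instance
  have hEf : Module.Finite ℂ (EE U) := EE_finite (by omega) U
  -- the dimension of EE U
  have hEE : Module.finrank ℂ (EE U) ≤ 3 := by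
    by_contra hcon
    have h2 := c0 pB2 (j + 2) d j (by omega) T hT hr hr' (by rw [← hU]; omega)
    have h3 := lev3 (by omega : 1 ≤ j) d.V T hr hr'
    rw [← hU] at h2 h3
    have h4 := Submodule.finrank_mono h2
    unfold rk at hE
    omega
  have hEEEE : ∀ f : Pol j, (∀ w w' : Fin j → ℂ, lf w * lf w' * f ∈ U) → f = 0 := by
    intro f hf
    by_contra hf0
    have h2 : VF f ≤ EE U := by
      rintro p ⟨w, rfl⟩
      rw [mem_EE]
      intro i
      have h3 := hf (Pi.single i 1) w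
      rw [Pool.Agent.W2helper19.SOS.lf_single, mul_assoc] at h3
      exact h3
    have h3 := Submodule.finrank_mono h2
    rw [finrank_VF hf0] at h3
    omega
  -- the derivatives
  have hDE : ∀ u : Fin (j + 2) → ℂ, ∀ p ∈ d.V, res T p = 0 → Dv T u p ∈ EE U := by
    intro u p hp hp0
    rw [mem_EE]
    intro i
    have h2 := keyPsi d.V T hmax u 1 p hp (fun k hk => by
      obtain rfl : k = 0 := by omega
      rw [Psi_coeff_zero, hp0]) (Pi.single i 1)
    rw [Pool.Agent.W2helper19.SOS.lf_single, pow_one, ← hU] at h2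
    exact h2
  have hinj : ∀ p ∈ d.V, res T p = 0 → Dv T u₀ p = 0 → Dv T u₁ p = 0 → p = 0 := by
    intro p hp hp0 hd0 hd1
    by_contra hne
    obtain ⟨x, hx⟩ := Pool.Agent.W2helper22.SOSG.exists_eval_ne hne
    obtain ⟨y, hy⟩ := hdec x
    obtain ⟨u, hu⟩ : ∃ u, u = (w₀ ⬝ᵥ x) • u₀ + (w₁ ⬝ᵥ x) • u₁ := ⟨_, rfl⟩
    have hΨ : Psi T u p ≠ 0 := by
      intro h2
      have h3 := Psi_evalC T u y 1 p
      rw [h2, Polynomial.eval_zero, map_zero, one_smul, hu, ← hy] at h3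
      exact hx h3.symm
    have hex : ∃ k, (Psi T u p).coeff k ≠ 0 := by
      by_contra hcon
      push Not at hcon
      exact hΨ (Polynomial.ext fun k => by rw [hcon k, Polynomial.coeff_zero])
    obtain ⟨i, hi, hmin⟩ : ∃ i, (Psi T u p).coeff i ≠ 0 ∧ ∀ k < i, (Psi T u p).coeff k = 0 :=
      ⟨Nat.find hex, Nat.find_spec hex, fun k hk => not_not.1 (Nat.find_min hex hk)⟩
    have hi0 : i ≠ 0 := by
      rintro rfl
      rw [Psi_coeff_zero] at hi
      exact hi hp0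
    have hi1 : i ≠ 1 := by
      rintro rfl
      rw [← Dv_apply, hu, Dv_add, hd0, hd1] at hi
      simp at hi
    obtain ⟨m, rfl⟩ : ∃ m, i = m + 2 := ⟨i - 2, by omega⟩
    obtain ⟨f, hf0, hf⟩ := polar U (by omega) _ hi m (fun w => by
      rw [hU]
      exact keyPsi d.V T hmax u (m + 2) p hp hmin w)
    exact hf0 (hEEEE f hf)
  -- the kernel
  obtain ⟨P, hP⟩ : ∃ P, P = d.V ⊓ LinearMap.ker (res T).toLinearMap := ⟨_, rfl⟩
  have hPmem : ∀ p, p ∈ P ↔ p ∈ d.V ∧ res T p = 0 := by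
    intro p
    rw [hP, Submodule.mem_inf, LinearMap.mem_ker]
    rfl
  have hPf : Module.Finite ℂ P := by
    rw [hP]
    exact Submodule.finiteDimensional_inf_left _ _
  have hPdim : Module.finrank ℂ P = 5 := by
    have h2 := finrank_ker_add d.V T
    have h3 := (pB1 (j + 2) d.V d.finV).2.2.2.1
    rw [← hP, hr] at h2
    omega
  obtain ⟨Λ, hΛ⟩ : ∃ Λ : Pol (j + 2) →ₗ[ℂ] Pol j × Pol j, Λ = (Dv T u₀).prod (Dv T u₁) :=
    ⟨_, rfl⟩
  have hΛa : ∀ p, Λ p = (Dv T u₀ p, Dv T u₁ p) := by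
    intro p
    rw [hΛ]
    rfl
  obtain ⟨W, hW⟩ : ∃ W, W = P.map Λ := ⟨_, rfl⟩
  have hΛinj : ∀ p ∈ P, Λ p = 0 → p = 0 := by
    intro p hp h2
    rw [hΛa] at h2
    have h3 := (hPmem p).1 hp
    exact hinj p h3.1 h3.2 (congrArg Prod.fst h2) (congrArg Prod.snd h2)
  have hWdim : Module.finrank ℂ W = 5 := by
    have h2 : Function.Injective (Λ.domRestrict P) := by
      rw [← LinearMap.ker_eq_bot, LinearMap.ker_eq_bot']
      intro p hp
      exact Subtype.ext (hΛinj p.1 p.2 hp)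
    have h3 := LinearMap.finrank_range_of_inj h2
    rw [LinearMap.range_domRestrict, ← hW, hPdim] at h3
    exact h3
  have hWf : Module.Finite ℂ W := by rw [hW]; infer_instance
  have hWE : ∀ q ∈ W, q.1 ∈ EE U ∧ q.2 ∈ EE U := by
    intro q hq
    rw [hW] at hq
    obtain ⟨p, hp, rfl⟩ := Submodule.mem_map.1 hq
    rw [hΛa]
    have h3 := (hPmem p).1 hp
    exact ⟨hDE u₀ p h3.1 h3.2, hDE u₁ p h3.1 h3.2⟩
  have hE3 : Module.finrank ℂ (EE U) = 3 := by
    let f : W →ₗ[ℂ] (EE U) × (EE U) :=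
      { toFun := fun q => (⟨q.1.1, (hWE q.1 q.2).1⟩, ⟨q.1.2, (hWE q.1 q.2).2⟩)
        map_add' := fun a b => rfl
        map_smul' := fun c a => rfl }
    have hf : Function.Injective f := by
      intro a b hab
      have e1 : a.1.1 = b.1.1 := congrArg (fun z => (z.1 : Pol j)) hab
      have e2 : a.1.2 = b.1.2 := congrArg (fun z => (z.2 : Pol j)) hab
      exact Subtype.ext (Prod.ext e1 e2)
    have h2 := LinearMap.finrank_le_finrank_of_injective hf
    rw [hWdim, Module.finrank_prod] at h2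
    omega
  have hnot : ¬ ∀ a ∈ EE U, ∀ b ∈ EE U, (a, b) ∈ W := by
    intro hcon
    let f : (EE U) × (EE U) →ₗ[ℂ] W :=
      { toFun := fun q => ⟨(q.1.1, q.2.1), hcon q.1.1 q.1.2 q.2.1 q.2.2⟩
        map_add' := fun a b => rfl
        map_smul' := fun c a => rfl }
    have hf : Function.Injective f := by
      intro a b hab
      have e1 : a.1.1 = b.1.1 := congrArg (fun z => z.1.1) hab
      have e2 : a.2.1 = b.2.1 := congrArg (fun z => z.1.2) hab
      exact Prod.ext (Subtype.ext e1) (Subtype.ext e2)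
    have h2 := LinearMap.finrank_le_finrank_of_injective hf
    rw [hWdim, Module.finrank_prod] at h2
    omega
  -- the pencil
  have hwab : ∀ a b : ℂ, (a ≠ 0 ∨ b ≠ 0) → a • w₀ + b • w₁ ≠ 0 := by
    intro a b hab h2
    have h3 : w₀ ⬝ᵥ u₀ = 1 := a00
    have e0 : (a • w₀ + b • w₁) ⬝ᵥ u₀ = a := by
      rw [add_dotProduct, smul_dotProduct, smul_dotProduct, a00, a10]
      simp
    have e1 : (a • w₀ + b • w₁) ⬝ᵥ u₁ = b := by
      rw [add_dotProduct, smul_dotProduct, smul_dotProduct, a01, a11]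
      simp
    rw [h2, zero_dotProduct] at e0 e1
    rcases hab with h | h
    · exact h e0.symm
    · exact h e1.symm
  have hwT : ∀ a b : ℂ, Matrix.vecMul (a • w₀ + b • w₁) T = 0 := by
    intro a b
    rw [Matrix.add_vecMul, Matrix.smul_vecMul, Matrix.smul_vecMul, h0, h1, smul_zero, smul_zero,
      add_zero]
  have hFP : ∀ a b : ℂ, ∀ g ∈ Fs d.V (a • w₀ + b • w₁), lf (a • w₀ + b • w₁) * g ∈ P := by
    intro a b g hg
    refine (hPmem _).2 ⟨mem_Fs.1 hg, ?_⟩
    rw [map_mul, res_lf, hwT, Pool.Agent.W2helper66.SOS.lf_zero, zero_mul]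
  have hFΛ : ∀ a b : ℂ, ∀ g : Pol (j + 2), Λ (lf (a • w₀ + b • w₁) * g) =
      (C a * res T g, C b * res T g) := by
    intro a b g
    have e0 : (a • w₀ + b • w₁) ⬝ᵥ u₀ = a := by
      rw [add_dotProduct, smul_dotProduct, smul_dotProduct, a00, a10]
      simp
    have e1 : (a • w₀ + b • w₁) ⬝ᵥ u₁ = b := by
      rw [add_dotProduct, smul_dotProduct, smul_dotProduct, a01, a11]
      simp
    rw [hΛa, Dv_lf T u₀ _ (hwT a b), Dv_lf T u₁ _ (hwT a b), e0, e1]
  obtain ⟨G, hG⟩ : ∃ G : ℂ → ℂ → Submodule ℂ (Pol j),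
      ∀ a b, G a b = (Fs d.V (a • w₀ + b • w₁)).map (res T).toLinearMap := ⟨_, fun _ _ => rfl⟩
  have hGdim : ∀ a b : ℂ, (a ≠ 0 ∨ b ≠ 0) → 2 ≤ Module.finrank ℂ (G a b) := by
    intro a b hab
    have h2 : Module.finrank ℂ d.V ≤ Module.finrank ℂ (Fs d.V (a • w₀ + b • w₁)) +
      mx d.V (j + 1) := finrank_Fs (N := j + 1) d.V (hwab a b hab)
    have h3 : mx d.V (j + 2) = Module.finrank ℂ d.V := (pB1 (j + 2) d.V d.finV).2.2.2.1
    have := Fs_finite d.V (hwab a b hab)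
    have h4 : Function.Injective ((res T).toLinearMap.domRestrict (Fs d.V (a • w₀ + b • w₁))) := by
      rw [← LinearMap.ker_eq_bot, LinearMap.ker_eq_bot']
      intro g hg
      have hg' : res T g.1 = 0 := hg
      have h5 : Λ (lf (a • w₀ + b • w₁) * g.1) = 0 := by
        rw [hFΛ, hg', mul_zero, mul_zero]
        rfl
      have h6 := hΛinj _ (hFP a b g.1 g.2) h5
      rcases mul_eq_zero.1 h6 with h7 | h7
      · exact absurd h7 (Pool.Agent.W2helper19.SOS.lf_ne_zero (hwab a b hab))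
      · exact Subtype.ext h7
    have h5 := LinearMap.finrank_range_of_inj h4
    rw [LinearMap.range_domRestrict, ← hG] at h5
    omega
  have hGW : ∀ a b : ℂ, ∀ q ∈ G a b, (C a * q, C b * q) ∈ W := by
    intro a b q hq
    rw [hG] at hq
    obtain ⟨g, hg, rfl⟩ := Submodule.mem_map.1 hq
    rw [hW]
    exact Submodule.mem_map.2 ⟨_, hFP a b g hg, hFΛ a b g⟩
  have hGE : ∀ a b : ℂ, (a ≠ 0 ∨ b ≠ 0) → G a b ≤ EE U := by
    intro a b hab q hq
    have h2 := hWE _ (hGW a b q hq)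
    rcases hab with ha | hb
    · have h3 := (EE U).smul_mem a⁻¹ h2.1
      show q ∈ EE U
      have h4 : a⁻¹ • (C a * q) = q := by
        rw [← smul_eq_C_mul, smul_smul, inv_mul_cancel₀ ha, one_smul]
      rwa [h4] at h3
    · have h3 := (EE U).smul_mem b⁻¹ h2.2
      have h4 : b⁻¹ • (C b * q) = q := by
        rw [← smul_eq_C_mul, smul_smul, inv_mul_cancel₀ hb, one_smul]
      rwa [h4] at h3
  -- the common element
  obtain ⟨c, hc0, hcA, hcB⟩ : ∃ c, c ≠ 0 ∧ c ∈ G 1 0 ∧ c ∈ G 0 1 := by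
    have hA := hGE 1 0 (Or.inl one_ne_zero)
    have hB := hGE 0 1 (Or.inr one_ne_zero)
    have dA := hGdim 1 0 (Or.inl one_ne_zero)
    have dB := hGdim 0 1 (Or.inr one_ne_zero)
    have : Module.Finite ℂ (G 1 0) := Submodule.finiteDimensional_of_le hA
    have : Module.Finite ℂ (G 0 1) := Submodule.finiteDimensional_of_le hB
    have h2 := Submodule.finrank_sup_add_finrank_inf_eq (G 1 0) (G 0 1)
    have h3 := Submodule.finrank_mono (sup_le hA hB)
    have h4 : G 1 0 ⊓ G 0 1 ≠ ⊥ := by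
      intro h5
      rw [h5, finrank_bot] at h2
      omega
    obtain ⟨c, hc, hc0⟩ := Submodule.exists_mem_ne_zero_of_ne_bot h4
    exact ⟨c, hc0, (Submodule.mem_inf.1 hc).1, (Submodule.mem_inf.1 hc).2⟩
  obtain ⟨c₀, hc₀, hc₀c⟩ : ∃ c₀ ∈ Fs d.V ((1 : ℂ) • w₀ + (0 : ℂ) • w₁), res T c₀ = c := by
    rw [hG] at hcA
    exact hcA
  obtain ⟨c₁, hc₁, hc₁c⟩ : ∃ c₁ ∈ Fs d.V ((0 : ℂ) • w₀ + (1 : ℂ) • w₁), res T c₁ = c := by
    rw [hG] at hcB
    exact hcB
  have hcW : ∀ t : ℂ, (c, C t * c) ∈ W := by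
    intro t
    have e1 := hGW 1 0 c hcA
    have e2 := hGW 0 1 c hcB
    have e3 := W.add_mem e1 (W.smul_mem t e2)
    have e4 : ((C 1 * c, C 0 * c) : Pol j × Pol j) + t • ((C 0 * c, C 1 * c) : Pol j × Pol j) =
        (c, C t * c) := by
      ext1
      · show C 1 * c + t • (C 0 * c) = c
        rw [C_0, C_1]; simp
      · show C 0 * c + t • (C 1 * c) = C t * c
        rw [C_0, C_1, smul_eq_C_mul]; simp
    rwa [e4] at e3
  -- good parameters
  have hbad : {t : ℂ | ∀ q ∈ EE U, (q, C t * q) ∈ W}.Finite := by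
    apply Set.Subsingleton.finite
    intro t ht t' ht'
    by_contra hne
    apply hnot
    have h2 : ∀ q ∈ EE U, (0, q) ∈ W := by
      intro q hq
      have e1 := W.sub_mem (ht q hq) (ht' q hq)
      have e2 := W.smul_mem (t - t')⁻¹ e1
      have e3 : (t - t')⁻¹ • (((q, C t * q) : Pol j × Pol j) - (q, C t' * q)) = (0, q) := by
        ext1
        · show (t - t')⁻¹ • (q - q) = 0
          simp
        · show (t - t')⁻¹ • (C t * q - C t' * q) = q
          rw [← sub_mul, ← C_sub, ← smul_eq_C_mul, smul_smul, inv_mul_cancel₀ (sub_ne_zero.2 hne),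
            one_smul]
      rwa [e3] at e2
    intro a ha b hb
    have e1 := W.add_mem (ht a ha) (h2 (b - C t * a) (by
      refine (EE U).sub_mem hb ?_
      rw [← smul_eq_C_mul]
      exact (EE U).smul_mem _ ha))
    have e2 : ((a, C t * a) : Pol j × Pol j) + (0, b - C t * a) = (a, b) := by
      ext1
      · show a + 0 = a
        simp
      · show C t * a + (b - C t * a) = b
        ring
    rwa [e2] at e1
  have hgood : ∀ t : ℂ, t ∉ {t : ℂ | ∀ q ∈ EE U, (q, C t * q) ∈ W} → c ∈ G 1 t := by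
    intro t ht
    obtain ⟨K, hK⟩ : ∃ K : Submodule ℂ (Pol j), K = W.comap
        (LinearMap.id.prod (t • LinearMap.id)) := ⟨_, rfl⟩
    have hKmem : ∀ q, q ∈ K ↔ (q, C t * q) ∈ W := by
      intro q
      rw [hK, Submodule.mem_comap, ← smul_eq_C_mul]
      rfl
    have hKE : K ≤ EE U := fun q hq => (hWE _ ((hKmem q).1 hq)).1
    have hlt : K < EE U := by
      refine lt_of_le_of_ne hKE ?_
      intro h2
      apply ht
      intro q hq
      rw [← hKmem, h2]
      exact hq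
    have hdK := Submodule.finrank_lt_finrank_of_lt hlt
    have hGK : G 1 t ≤ K := by
      intro q hq
      rw [hKmem]
      have := hGW 1 t q hq
      rwa [C_1, one_mul] at this
    have : Module.Finite ℂ K := Submodule.finiteDimensional_of_le hKE
    have heq : G 1 t = K := by
      apply Submodule.eq_of_le_of_finrank_le hGK
      have := hGdim 1 t (Or.inl one_ne_zero)
      omega
    rw [heq, hKmem]
    exact hcW t
  -- the conclusion
  have hkey : ∀ t : ℂ, t ∉ {t : ℂ | ∀ q ∈ EE U, (q, C t * q) ∈ W} →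
      ∃ g, lf ((1 : ℂ) • w₀ + t • w₁) * g = lf w₀ * c₀ + C t * (lf w₁ * c₁) := by
    intro t ht
    have h2 := hgood t ht
    rw [hG] at h2
    obtain ⟨g, hg, hgc⟩ := Submodule.mem_map.1 h2
    have hgc' : res T g = c := hgc
    refine ⟨g, ?_⟩
    have f0 : lf w₀ * c₀ ∈ P := by
      have := hFP 1 0 c₀ hc₀
      rwa [one_smul, zero_smul, add_zero] at this
    have f1 : lf w₁ * c₁ ∈ P := by
      have := hFP 0 1 c₁ hc₁
      rwa [one_smul, zero_smul, zero_add] at this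
    have f2 := hFP 1 t g hg
    have f3 : lf ((1 : ℂ) • w₀ + t • w₁) * g - (lf w₀ * c₀ + C t * (lf w₁ * c₁)) ∈ P := by
      refine P.sub_mem f2 (P.add_mem f0 ?_)
      rw [← smul_eq_C_mul]
      exact P.smul_mem _ f1
    have f4 : Λ (lf ((1 : ℂ) • w₀ + t • w₁) * g - (lf w₀ * c₀ + C t * (lf w₁ * c₁))) = 0 := by
      have g0 : Λ (lf w₀ * c₀) = (c, 0) := by
        have := hFΛ 1 0 c₀
        rw [one_smul, zero_smul, add_zero, hc₀c, C_1, C_0, one_mul, zero_mul] at this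
        exact this
      have g1 : Λ (lf w₁ * c₁) = (0, c) := by
        have := hFΛ 0 1 c₁
        rw [one_smul, zero_smul, zero_add, hc₁c, C_1, C_0, one_mul, zero_mul] at this
        exact this
      rw [map_sub, map_add, ← smul_eq_C_mul, map_smul, g0, g1, hFΛ, hgc', C_1, one_mul]
      ext1
      · show c - (c + t • 0) = 0
        simp
      · show C t * c - (0 + t • c) = 0
        rw [smul_eq_C_mul]; ring
    exact sub_eq_zero.1 (hΛinj _ f3 f4)
  have hw1 : w₁ ≠ 0 := by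
    have := hwab 0 1 (Or.inr one_ne_zero)
    rwa [one_smul, zero_smul, zero_add] at this
  have hcc : c₁ - c₀ = 0 := by
    refine pencil (c₁ - c₀) w₀ w₁ u₀ a00 a10 _ (hbad.union (Set.finite_singleton (0 : ℂ))) ?_ hw1
    intro t ht x hx hx1
    rw [Set.mem_union, not_or, Set.mem_singleton_iff] at ht
    obtain ⟨g, hg⟩ := hkey t ht.1
    have h2 := congrArg (eval x) hg
    rw [map_mul, map_add, map_mul, map_mul, map_mul, eval_C, eval_lf', eval_lf', eval_lf',
      add_dotProduct, smul_dotProduct, smul_dotProduct, smul_eq_mul, smul_eq_mul, one_mul, hx,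
      zero_mul] at h2
    rw [map_sub]
    have h3 : w₀ ⬝ᵥ x = -(t * (w₁ ⬝ᵥ x)) := by linear_combination hx
    rw [h3] at h2
    have h4 : (t * (w₁ ⬝ᵥ x)) * (eval x c₁ - eval x c₀) = 0 := by linear_combination -h2
    rcases mul_eq_zero.1 h4 with h5 | h5
    · exact absurd h5 (mul_ne_zero ht.2 hx1)
    · exact h5
  have hcc' : c₁ = c₀ := sub_eq_zero.1 hcc
  refine ⟨c₀, ?_, ?_, ?_⟩
  · rintro rfl
    rw [map_zero] at hc₀c
    exact hc0 hc₀c.symm
  · have := mem_Fs.1 hc₀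
    rwa [one_smul, zero_smul, add_zero] at this
  · have := mem_Fs.1 hc₁
    rwa [one_smul, zero_smul, zero_add, hcc'] at this

theorem lemX : LemX := by
  intro n d hn k1 k2 k3 T w₀ w₁ hw hT h0 h1 hr hr' hE
  obtain ⟨j, rfl⟩ : ∃ j, n = j + 2 := ⟨n - 2, by omega⟩
  exact lemX_core j d (by omega) k1 k2 k3 T w₀ w₁ hw hT h0 h1 hr hr' hE

end Pool.Agent.W2helper12.SOS2
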