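import Pool.Agent.W2helper74.SOS.Stm4
import Pool.Agent.W2helper12.SOS.J1
import Pool.Agent.W2helper66.SOS.J2
import Pool.Agent.W2helper19.SOS.J3
import Pool.Agent.W2helper22.SOSG.G

/-!
# MP_ce7760_an, piece P19 : LemX
-/

set_option autoImplicit false

open MvPolynomial

namespace Pool.Agent.W2helper12.SOS2

open Pool.Agent.W2helper74.SOS
open Pool.Agent.W2helper19.SOS (EE_finite finrank_ker_add mem_EE VF mem_VF finrank_VF res_mem
  lev3 rs_mono finrank_map_mulLeft)
open Pool.Agent.W2helper12.SOS (res_lf res_X eval_res exists_rk le_mx pB1 pB2 pB3 pC2')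

/-- `p (T x + s u)` as a polynomial in `s` -/
noncomputable def Psi {n j : ℕ} (T : Matrix (Fin n) (Fin j) ℂ) (u : Fin n → ℂ) :
    Pol n →ₐ[ℂ] Polynomial (Pol j) :=
  aeval (fun k => Polynomial.C (lf (T k)) + Polynomial.C (C (u k)) * Polynomial.X)

/-- the perturbed matrix -/
def Tp {n j : ℕ} (T : Matrix (Fin n) (Fin j) ℂ) (u : Fin n → ℂ) (w : Fin j → ℂ) (t : ℂ) :
    Matrix (Fin n) (Fin j) ℂ := fun k i => T k i + t * (u k * w i)

theorem Psi_X {n j : ℕ} (T : Matrix (Fin n) (Fin j) ℂ) (u : Fin n → ℂ) (k : Fin n) :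
    Psi T u (X k) = Polynomial.C (lf (T k)) + Polynomial.C (C (u k)) * Polynomial.X :=
  aeval_X _ _

theorem Psi_eval {n j : ℕ} (T : Matrix (Fin n) (Fin j) ℂ) (u : Fin n → ℂ) (w : Fin j → ℂ) (t : ℂ)
    (p : Pol n) : (Psi T u p).eval (C t * lf w) = res (Tp T u w t) p := by
  have key : ((Polynomial.aeval (C t * lf w : Pol j)).restrictScalars ℂ).comp (Psi T u) =
      res (Tp T u w t) := by
    apply MvPolynomial.algHom_ext
    intro k
    simp only [AlgHom.comp_apply, res_X, Psi_X, AlgHom.restrictScalars_apply]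
    have h1 : Tp T u w t k = T k + (t * u k) • w := by
      funext i
      show T k i + t * (u k * w i) = T k i + (t * u k) * w i
      ring
    rw [h1, Pool.Agent.W2helper66.SOS.lf_add, Pool.Agent.W2helper66.SOS.lf_smul, map_add, map_mul,
      Polynomial.aeval_C, Polynomial.aeval_C, Polynomial.aeval_X, C_mul]
    show lf (T k) + C (u k) * (C t * lf w) = lf (T k) + C t * C (u k) * lf w
    ring
  have := congrArg (fun f => f p) key
  simpa [Polynomial.aeval_def, Polynomial.eval₂_eq_eval_map] using this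

theorem Psi_evalC {n j : ℕ} (T : Matrix (Fin n) (Fin j) ℂ) (u : Fin n → ℂ) (y : Fin j → ℂ) (t : ℂ)
    (p : Pol n) : eval y ((Psi T u p).eval (C t)) = eval (T.mulVec y + t • u) p := by
  have key : ((aeval y : Pol j →ₐ[ℂ] ℂ).comp
      ((Polynomial.aeval (C t : Pol j)).restrictScalars ℂ)).comp (Psi T u) =
      aeval (T.mulVec y + t • u) := by
    apply MvPolynomial.algHom_ext
    intro k
    simp only [AlgHom.comp_apply, Psi_X, AlgHom.restrictScalars_apply, aeval_X]
    rw [map_add, map_mul, Polynomial.aeval_C, Polynomial.aeval_C, Polynomial.aeval_X]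
    show aeval y (lf (T k) + C (u k) * C t) = T.mulVec y k + t * u k
    rw [map_add, map_mul, aeval_C, aeval_C]
    have h2 : aeval y (lf (T k)) = T.mulVec y k := by
      unfold lf
      rw [map_sum]
      refine Finset.sum_congr rfl fun i _ => ?_
      rw [map_mul, aeval_X, aeval_C]
      rfl
    rw [h2]
    show _ + u k * t = _
    ring
  have h2 := DFunLike.congr_fun key p
  simp only [AlgHom.comp_apply, AlgHom.restrictScalars_apply] at h2
  rw [aeval_def, aeval_def, eval₂_eq_eval_map, eval₂_eq_eval_map] at h2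
  simpa [Polynomial.aeval_def, Polynomial.eval₂_eq_eval_map] using h2

theorem Psi_coeff_zero {n j : ℕ} (T : Matrix (Fin n) (Fin j) ℂ) (u : Fin n → ℂ) (p : Pol n) :
    (Psi T u p).coeff 0 = res T p := by
  have h1 := Psi_eval T u 0 0 p
  rw [C_0, zero_mul, ← Polynomial.coeff_zero_eq_eval_zero] at h1
  have h2 : Tp T u 0 0 = T := by
    funext k i
    simp [Tp]
  rw [h1, h2]

theorem Psi_coeff_one {n j : ℕ} (T : Matrix (Fin n) (Fin j) ℂ) (u : Fin n → ℂ) (p : Pol n) :
    (Psi T u p).coeff 1 = ∑ k, C (u k) * res T (pderiv k p) := by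
  classical
  induction p using MvPolynomial.induction_on with
  | C a =>
    have h1 : Psi T u (C a) = Polynomial.C (C a) := aeval_C _ _
    rw [h1, Polynomial.coeff_C_succ]
    simp
  | add p q hp hq =>
    rw [map_add, Polynomial.coeff_add, hp, hq, ← Finset.sum_add_distrib]
    refine Finset.sum_congr rfl fun k _ => ?_
    rw [map_add, map_add, mul_add]
  | mul_X p k hp =>
    rw [map_mul, Psi_X, mul_add, Polynomial.coeff_add, Polynomial.coeff_mul_C, hp]
    have h1 : (Psi T u p * (Polynomial.C (C (u k)) * Polynomial.X)).coeff 1 =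
        res T p * C (u k) := by
      rw [← mul_assoc, Polynomial.coeff_mul_X, Polynomial.coeff_mul_C, Psi_coeff_zero]
    rw [h1]
    have h2 : ∀ l, C (u l) * res T (pderiv l (p * X k)) =
        C (u l) * res T (pderiv l p) * lf (T k) + (if l = k then res T p * C (u k) else 0) := by
      intro l
      rw [Derivation.leibniz, map_add, smul_eq_mul, smul_eq_mul, map_mul, map_mul, res_X]
      by_cases hlk : l = k
      · subst hlk
        rw [pderiv_X_self, map_one, if_pos rfl]
        ring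
      · rw [pderiv_X_of_ne (Ne.symm hlk), map_zero, if_neg hlk]
        ring
    rw [Finset.sum_congr rfl fun l _ => h2 l, Finset.sum_add_distrib, ← Finset.sum_mul]
    simp

/-- the key claim -/
theorem keyPsi {n j : ℕ} (V : Submodule ℂ (Pol n)) [hV : Module.Finite ℂ V]
    (T : Matrix (Fin n) (Fin j) ℂ) (hmax : ∀ S : Matrix (Fin n) (Fin j) ℂ, rk V S ≤ rk V T)
    (u : Fin n → ℂ) (i : ℕ) (p : Pol n) (hp : p ∈ V) (h0 : ∀ k < i, (Psi T u p).coeff k = 0)
    (w : Fin j → ℂ) : lf w ^ i * (Psi T u p).coeff i ∈ rs V T := by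
  classical
  by_contra hnot
  obtain ⟨s, hs⟩ : ∃ s, s = rk V T := ⟨_, rfl⟩
  obtain ⟨v, hv, hli⟩ := exists_rk V hV T s hs.symm
  let c : Option (Fin s) → ℕ → Pol j := fun o k =>
    o.elim (lf w ^ (i + k) * (Psi T u p).coeff (i + k))
      (fun a => lf w ^ k * (Psi T u (v a)).coeff k)
  obtain ⟨N, hNp, hN⟩ : ∃ N, (Psi T u p).natDegree < N ∧
      ∀ a, (Psi T u (v a)).natDegree < N := by
    refine ⟨(Psi T u p).natDegree + (∑ a, (Psi T u (v a)).natDegree) + 1, by omega, fun a => ?_⟩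
    have := Finset.single_le_sum (f := fun a => (Psi T u (v a)).natDegree)
      (fun _ _ => Nat.zero_le _) (Finset.mem_univ a)
    have h' : (Psi T u (v a)).natDegree ≤ ∑ a, (Psi T u (v a)).natDegree := this
    omega
  have e1 : ∀ (t : ℂ) (a : Fin s), ∑ k ∈ Finset.range N, t ^ k • c (some a) k =
      res (Tp T u w t) (v a) := by
    intro t a
    rw [← Psi_eval, Polynomial.eval_eq_sum_range' (hN a)]
    refine Finset.sum_congr rfl fun k _ => ?_
    show t ^ k • (lf w ^ k * (Psi T u (v a)).coeff k) = (Psi T u (v a)).coeff k * (C t * lf w) ^ k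
    rw [smul_eq_C_mul, mul_pow, C_pow]
    ring
  have e2 : ∀ t : ℂ, t ^ i • ∑ k ∈ Finset.range N, t ^ k • c none k = res (Tp T u w t) p := by
    intro t
    have hN' : (Psi T u p).natDegree < i + N := lt_of_lt_of_le hNp (Nat.le_add_left _ _)
    rw [← Psi_eval, Polynomial.eval_eq_sum_range' hN', Finset.sum_range_add,
      Finset.sum_eq_zero (s := Finset.range i), zero_add, Finset.smul_sum]
    · refine Finset.sum_congr rfl fun k _ => ?_
      show t ^ i • t ^ k • (lf w ^ (i + k) * (Psi T u p).coeff (i + k)) =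
        (Psi T u p).coeff (i + k) * (C t * lf w) ^ (i + k)
      rw [smul_smul, smul_eq_C_mul, mul_pow, ← pow_add, C_pow]
      ring
    · intro k hk
      rw [h0 k (Finset.mem_range.1 hk), zero_mul]
  have hc0 : ∀ o, ∑ k ∈ Finset.range N, (0 : ℂ) ^ k • c o k = c o 0 := by
    intro o
    rw [Finset.sum_eq_single 0]
    · rw [pow_zero, one_smul]
    · intro k _ hk
      rw [zero_pow hk, zero_smul]
    · intro h
      exact absurd (Finset.mem_range.2 (by omega)) h
  have h1 : LinearIndependent ℂ (fun o => ∑ k ∈ Finset.range N, (0 : ℂ) ^ k • c o k) := by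
    have e : (fun o => ∑ k ∈ Finset.range N, (0 : ℂ) ^ k • c o k) =
        fun o => Option.casesOn' o (lf w ^ i * (Psi T u p).coeff i)
          (fun a => res T (v a)) := by
      funext o
      rw [hc0]
      cases o with
      | none => rfl
      | some a =>
        show lf w ^ 0 * (Psi T u (v a)).coeff 0 = res T (v a)
        rw [pow_zero, one_mul, Psi_coeff_zero]
    rw [e, linearIndependent_option']
    refine ⟨hli, fun hmem => hnot ?_⟩
    refine (Submodule.span_le.2 ?_) hmem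
    rintro _ ⟨a, rfl⟩
    exact res_mem (hv a)
  have hfin := Pool.Agent.W2helper66.SOS.semi N c 0 h1
  have hfin2 := hfin.union (Set.finite_singleton (0 : ℂ))
  obtain ⟨t, ht⟩ := hfin2.infinite_compl.nonempty
  simp only [Set.mem_compl_iff, Set.mem_union, Set.mem_ofPred_eq, Set.mem_singleton_iff,
    not_or, not_not] at ht
  obtain ⟨hli', ht0⟩ := ht
  have hmem : ∀ o, ∑ k ∈ Finset.range N, t ^ k • c o k ∈ rs V (Tp T u w t) := by
    intro o
    cases o with
    | none =>
      have h2 : res (Tp T u w t) p ∈ rs V (Tp T u w t) := res_mem hp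
      rw [← e2 t] at h2
      have h3 := (rs V (Tp T u w t)).smul_mem ((t ^ i)⁻¹) h2
      rwa [smul_smul, inv_mul_cancel₀ (pow_ne_zero i ht0), one_smul] at h3
    | some a =>
      rw [e1]
      exact res_mem (hv a)
  have hli2 : LinearIndependent ℂ (fun o => (⟨∑ k ∈ Finset.range N, t ^ k • c o k, hmem o⟩ :
      rs V (Tp T u w t))) := by
    apply LinearIndependent.of_comp (rs V (Tp T u w t)).subtype
    exact hli'
  have hcard := hli2.fintype_card_le_finrank
  rw [Fintype.card_option, Fintype.card_fin] at hcard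
  have := hmax (Tp T u w t)
  unfold rk at this hs
  omega

/-- polarisation -/
theorem polar {j : ℕ} (U : Submodule ℂ (Pol j)) (hj : 1 ≤ j) (g₀ : Pol j) (hg : g₀ ≠ 0) (m : ℕ)
    (hK : ∀ w : Fin j → ℂ, lf w ^ (m + 2) * g₀ ∈ U) :
    ∃ f : Pol j, f ≠ 0 ∧ ∀ w w' : Fin j → ℂ, lf w * lf w' * f ∈ U := by
  let z : Fin j := ⟨0, hj⟩
  refine ⟨X z ^ m * g₀, mul_ne_zero (pow_ne_zero _ (X_ne_zero z)) hg, ?_⟩
  intro w w'
  have h1 : ∀ a : Fin j → ℂ, lf w' * lf a ^ (m + 1) * C ((m + 2 : ℕ) : ℂ) * g₀ ∈ U := by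
    intro a
    have hc := Pool.Agent.W2helper66.SOS.coef U (m + 2 + 1)
      (fun k => lf w' ^ k * lf a ^ (m + 2 - k) * C (((m + 2).choose k : ℕ) : ℂ) * g₀) (by
        intro t
        have := hK (t • w' + a)
        rw [Pool.Agent.W2helper66.SOS.lf_add, Pool.Agent.W2helper66.SOS.lf_smul, add_pow,
          Finset.sum_mul] at this
        convert this using 1
        refine Finset.sum_congr rfl (fun k _ => ?_)
        rw [smul_eq_C_mul, mul_pow, map_pow]
        simp only [map_natCast]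
        ring) 1 (by omega)
    have e : m + 2 - 1 = m + 1 := by omega
    simpa [e] using hc
  have h2 := Pool.Agent.W2helper66.SOS.coef U (m + 1 + 1)
      (fun k => lf w ^ k * X z ^ (m + 1 - k) * C (((m + 1).choose k : ℕ) : ℂ) *
        (lf w' * C ((m + 2 : ℕ) : ℂ) * g₀)) (by
        intro t
        have := h1 (t • w + Pi.single z 1)
        rw [Pool.Agent.W2helper66.SOS.lf_add, Pool.Agent.W2helper66.SOS.lf_smul,
          Pool.Agent.W2helper66.SOS.lf_single, add_pow, Finset.mul_sum, Finset.sum_mul,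
          Finset.sum_mul] at this
        convert this using 1
        refine Finset.sum_congr rfl (fun k _ => ?_)
        rw [smul_eq_C_mul, mul_pow, map_pow]
        simp only [map_natCast]
        ring) 1 (by omega)
  have e : m + 1 - 1 = m := by omega
  rw [e, Nat.choose_one_right, pow_one] at h2
  have h3 := U.smul_mem ((((m + 1 : ℕ) : ℂ) * ((m + 2 : ℕ) : ℂ))⁻¹) h2
  have hne : (((m + 1 : ℕ) : ℂ) * ((m + 2 : ℕ) : ℂ)) ≠ 0 :=
    mul_ne_zero (Nat.cast_ne_zero.2 (by omega)) (Nat.cast_ne_zero.2 (by omega))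
  have e2 : lf w * X z ^ m * C ((m + 1 : ℕ) : ℂ) * (lf w' * C ((m + 2 : ℕ) : ℂ) * g₀) =
      (((m + 1 : ℕ) : ℂ) * ((m + 2 : ℕ) : ℂ)) • (lf w * lf w' * (X z ^ m * g₀)) := by
    rw [smul_eq_C_mul, map_mul]; ring
  rw [e2, smul_smul, inv_mul_cancel₀ hne, one_smul] at h3
  exact h3

/-! ### elements divisible by a linear form -/

/-- `{g : lf w g ∈ V}` -/
noncomputable def Fs {n : ℕ} (V : Submodule ℂ (Pol n)) (w : Fin n → ℂ) : Submodule ℂ (Pol n) :=
  V.comap (LinearMap.mulLeft ℂ (lf w))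

theorem mem_Fs {n : ℕ} {V : Submodule ℂ (Pol n)} {w : Fin n → ℂ} {g : Pol n} :
    g ∈ Fs V w ↔ lf w * g ∈ V := Iff.rfl

theorem rk_sb {N : ℕ} (V : Submodule ℂ (Pol (N + 1))) [hV : Module.Finite ℂ V]
    (w : Fin (N + 1) → ℂ) (i : Fin (N + 1)) (hw : w i ≠ 0) :
    Module.finrank ℂ (V.map (Pool.Agent.W2helper22.SOSG.sb w i).toLinearMap) ≤ mx V N := by
  classical
  let S : Matrix (Fin (N + 1)) (Fin N) ℂ := fun k l =>
    (if k = i.succAbove l then 1 else 0) - (if k = i then w (i.succAbove l) * (w i)⁻¹ else 0)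
  let R : Matrix (Fin N) (Fin (N + 1)) ℂ := fun l m => if m = i.succAbove l then 1 else 0
  have h1 : ∀ k, lf ((S * R) k) = X k - (if k = i then C (w i)⁻¹ * lf w else 0) := by
    intro k
    have h2 : (S * R) k = fun m => (if k = m then 1 else 0) -
        (if k = i then w m * (w i)⁻¹ else 0) := by
      funext m
      rw [Matrix.mul_apply]
      refine Fin.succAboveCases i ?_ (fun m' => ?_) m
      · rw [Finset.sum_eq_zero]
        · by_cases hk : k = i
          · rw [if_pos hk, if_pos hk, mul_inv_cancel₀ hw, sub_self]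
          · rw [if_neg hk, if_neg hk, sub_self]
        · intro l _
          show _ * (if i = i.succAbove l then (1 : ℂ) else 0) = 0
          rw [if_neg (Fin.succAbove_ne i l).symm, mul_zero]
      · rw [Finset.sum_eq_single m']
        · show ((if k = i.succAbove m' then (1 : ℂ) else 0) -
            (if k = i then w (i.succAbove m') * (w i)⁻¹ else 0)) *
            (if i.succAbove m' = i.succAbove m' then (1 : ℂ) else 0) = _
          rw [if_pos rfl, mul_one]
        · intro l _ hl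
          show _ * (if i.succAbove m' = i.succAbove l then (1 : ℂ) else 0) = 0
          rw [if_neg, mul_zero]
          intro h
          exact hl (Fin.succAbove_right_injective h).symm
        · intro h
          exact absurd (Finset.mem_univ _) h
    rw [h2]
    unfold lf
    rw [Finset.mul_sum]
    have h3 : ∀ m, C ((if k = m then (1 : ℂ) else 0) - (if k = i then w m * (w i)⁻¹ else 0)) *
        (X m : Pol (N + 1)) = (if k = m then X m else 0) -
          (if k = i then C (w i)⁻¹ * (C (w m) * X m) else 0) := by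
      intro m
      rw [C_sub, sub_mul]
      congr 1
      · split_ifs <;> simp
      · split_ifs
        · rw [C_mul]; ring
        · simp
    rw [Finset.sum_congr rfl fun m _ => h3 m, Finset.sum_sub_distrib]
    congr 1
    · simp
    · split_ifs
      · rfl
      · simp
  have h2 : res (S * R) = Pool.Agent.W2helper22.SOSG.sb w i := by
    apply MvPolynomial.algHom_ext
    intro k
    rw [res_X, h1, Pool.Agent.W2helper22.SOSG.sb, aeval_X]
  rw [← h2]
  exact (Pool.Agent.W2helper12.SOS.rk_mul_le V hV S R).trans (le_mx V hV N S)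

theorem map_Fs {n : ℕ} (V : Submodule ℂ (Pol n)) (w : Fin n → ℂ) (i : Fin n) (hw : w i ≠ 0) :
    (Fs V w).map (LinearMap.mulLeft ℂ (lf w)) =
      V ⊓ LinearMap.ker (Pool.Agent.W2helper22.SOSG.sb w i).toLinearMap := by
  apply le_antisymm
  · intro p hp
    obtain ⟨g, hg, rfl⟩ := Submodule.mem_map.1 hp
    refine Submodule.mem_inf.2 ⟨hg, LinearMap.mem_ker.2 ?_⟩
    exact (Pool.Agent.W2helper22.SOSG.dvd_iff w i hw _).1 (Dvd.intro _ rfl)
  · intro p hp
    obtain ⟨hp, h0⟩ := Submodule.mem_inf.1 hp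
    obtain ⟨g, rfl⟩ := (Pool.Agent.W2helper22.SOSG.dvd_iff w i hw p).2 (LinearMap.mem_ker.1 h0)
    exact Submodule.mem_map.2 ⟨g, hp, rfl⟩

theorem exists_ne {n : ℕ} {w : Fin n → ℂ} (hw : w ≠ 0) : ∃ i, w i ≠ 0 := by
  by_contra h
  push Not at h
  exact hw (funext h)

theorem Fs_finite {n : ℕ} (V : Submodule ℂ (Pol n)) [Module.Finite ℂ V] {w : Fin n → ℂ}
    (hw : w ≠ 0) : Module.Finite ℂ (Fs V w) := by
  obtain ⟨i, hi⟩ := exists_ne hw
  have h1 : Module.Finite ℂ ((Fs V w).map (LinearMap.mulLeft ℂ (lf w))) := by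
    rw [map_Fs V w i hi]
    exact Submodule.finiteDimensional_inf_left _ _
  have hinj : Function.Injective (LinearMap.mulLeft ℂ (lf w)) := fun a b h =>
    mul_left_cancel₀ (Pool.Agent.W2helper19.SOS.lf_ne_zero hw) h
  exact Module.Finite.equiv (Submodule.equivMapOfInjective _ hinj (Fs V w)).symm

theorem finrank_Fs {N : ℕ} (V : Submodule ℂ (Pol (N + 1))) [hV : Module.Finite ℂ V]
    {w : Fin (N + 1) → ℂ} (hw : w ≠ 0) :
    Module.finrank ℂ V ≤ Module.finrank ℂ (Fs V w) + mx V N := by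
  obtain ⟨i, hi⟩ := exists_ne hw
  have h1 : Module.finrank ℂ ((Fs V w).map (LinearMap.mulLeft ℂ (lf w))) =
      Module.finrank ℂ (Fs V w) :=
    finrank_map_mulLeft _ (Pool.Agent.W2helper19.SOS.lf_ne_zero hw)
  rw [← h1, map_Fs V w i hi]
  have h2 := rk_sb V w i hi
  have h := LinearMap.finrank_range_add_finrank_ker
    ((Pool.Agent.W2helper22.SOSG.sb w i).toLinearMap.domRestrict V)
  have hr : LinearMap.range ((Pool.Agent.W2helper22.SOSG.sb w i).toLinearMap.domRestrict V) =
      V.map (Pool.Agent.W2helper22.SOSG.sb w i).toLinearMap := by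
    rw [LinearMap.range_domRestrict]
  have hk : Module.finrank ℂ (LinearMap.ker
      ((Pool.Agent.W2helper22.SOSG.sb w i).toLinearMap.domRestrict V)) =
      Module.finrank ℂ ↥(V ⊓ LinearMap.ker (Pool.Agent.W2helper22.SOSG.sb w i).toLinearMap) := by
    rw [LinearMap.ker_domRestrict]
    have := Submodule.finrank_map_subtype_eq V
      (Submodule.comap V.subtype (LinearMap.ker (Pool.Agent.W2helper22.SOSG.sb w i).toLinearMap))
    rw [← this, Submodule.map_comap_subtype]
  rw [hr, hk] at h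
  omega

/-! ### two linear forms -/

theorem eval_lf' {n : ℕ} (w x : Fin n → ℂ) : eval x (lf w) = w ⬝ᵥ x := by
  rw [Pool.Agent.W2helper22.SOSG.eval_lf]
  rfl

theorem exists_dual {n j : ℕ} (T : Matrix (Fin n) (Fin j) ℂ) (w₀ w₁ : Fin n → ℂ)
    (hw : LinearIndependent ℂ ![w₀, w₁]) (hT : T.rank + 2 = n) (h0 : Matrix.vecMul w₀ T = 0)
    (h1 : Matrix.vecMul w₁ T = 0) :
    ∃ u₀ u₁ : Fin n → ℂ, w₀ ⬝ᵥ u₀ = 1 ∧ w₀ ⬝ᵥ u₁ = 0 ∧ w₁ ⬝ᵥ u₀ = 0 ∧ w₁ ⬝ᵥ u₁ = 1 ∧
      ∀ x : Fin n → ℂ, ∃ y : Fin j → ℂ,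
        x = T.mulVec y + ((w₀ ⬝ᵥ x) • u₀ + (w₁ ⬝ᵥ x) • u₁) := by
  classical
  obtain ⟨W, hW⟩ : ∃ W : Matrix (Fin 2) (Fin n) ℂ, W = Matrix.of ![w₀, w₁] := ⟨_, rfl⟩
  have hrk : W.rank = 2 := by
    have h2 : LinearIndependent ℂ W.row := by
      rw [hW]
      exact hw
    have h3 := h2.rank_matrix
    simpa using h3
  have hW0 : ∀ x, W.mulVec x 0 = w₀ ⬝ᵥ x := by
    intro x
    rw [hW]
    rfl
  have hW1 : ∀ x, W.mulVec x 1 = w₁ ⬝ᵥ x := by
    intro x
    rw [hW]
    rfl
  have htop : LinearMap.range W.mulVecLin = ⊤ := by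
    apply Submodule.eq_top_of_finrank_eq
    rw [← Matrix.rank, hrk, Module.finrank_fin_fun]
  obtain ⟨u₀, hu₀⟩ : ∃ u, W.mulVecLin u = ![1, 0] := by
    have : ![1, 0] ∈ LinearMap.range W.mulVecLin := by rw [htop]; trivial
    exact this
  obtain ⟨u₁, hu₁⟩ : ∃ u, W.mulVecLin u = ![0, 1] := by
    have : ![0, 1] ∈ LinearMap.range W.mulVecLin := by rw [htop]; trivial
    exact this
  have a00 : w₀ ⬝ᵥ u₀ = 1 := by rw [← hW0]; exact congrFun hu₀ 0
  have a10 : w₁ ⬝ᵥ u₀ = 0 := by rw [← hW1]; exact congrFun hu₀ 1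
  have a01 : w₀ ⬝ᵥ u₁ = 0 := by rw [← hW0]; exact congrFun hu₁ 0
  have a11 : w₁ ⬝ᵥ u₁ = 1 := by rw [← hW1]; exact congrFun hu₁ 1
  refine ⟨u₀, u₁, a00, a01, a10, a11, fun x => ?_⟩
  have hle : LinearMap.range T.mulVecLin ≤ LinearMap.ker W.mulVecLin := by
    rintro _ ⟨y, rfl⟩
    rw [LinearMap.mem_ker]
    funext i
    show W.mulVec (T.mulVec y) i = 0
    fin_cases i
    · show W.mulVec (T.mulVec y) 0 = 0
      rw [hW0, Matrix.dotProduct_mulVec, h0, zero_dotProduct]
    · show W.mulVec (T.mulVec y) 1 = 0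
      rw [hW1, Matrix.dotProduct_mulVec, h1, zero_dotProduct]
  have hker := LinearMap.finrank_range_add_finrank_ker W.mulVecLin
  rw [← Matrix.rank, hrk, Module.finrank_fin_fun] at hker
  have heq : LinearMap.range T.mulVecLin = LinearMap.ker W.mulVecLin := by
    apply Submodule.eq_of_le_of_finrank_le hle
    rw [← Matrix.rank]
    omega
  have hz : x - ((w₀ ⬝ᵥ x) • u₀ + (w₁ ⬝ᵥ x) • u₁) ∈ LinearMap.ker W.mulVecLin := by
    rw [LinearMap.mem_ker]
    funext i
    show W.mulVec _ i = 0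
    fin_cases i
    · show W.mulVec _ 0 = 0
      rw [hW0, dotProduct_sub, dotProduct_add, dotProduct_smul, dotProduct_smul, a00, a01]
      simp
    · show W.mulVec _ 1 = 0
      rw [hW1, dotProduct_sub, dotProduct_add, dotProduct_smul, dotProduct_smul, a10, a11]
      simp
  rw [← heq] at hz
  obtain ⟨y, hy⟩ := hz
  refine ⟨y, ?_⟩
  have hy' : T.mulVec y = x - ((w₀ ⬝ᵥ x) • u₀ + (w₁ ⬝ᵥ x) • u₁) := hy
  rw [hy', sub_add_cancel]

/-- the derivative in the direction `u`, restricted to `im T` -/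
noncomputable def Dv {n j : ℕ} (T : Matrix (Fin n) (Fin j) ℂ) (u : Fin n → ℂ) :
    Pol n →ₗ[ℂ] Pol j :=
  ((Polynomial.lcoeff (Pol j) 1).restrictScalars ℂ).comp (Psi T u).toLinearMap

theorem Dv_apply {n j : ℕ} (T : Matrix (Fin n) (Fin j) ℂ) (u : Fin n → ℂ) (p : Pol n) :
    Dv T u p = (Psi T u p).coeff 1 := rfl

theorem Dv_add {n j : ℕ} (T : Matrix (Fin n) (Fin j) ℂ) (a b : ℂ) (u v : Fin n → ℂ) (p : Pol n) :
    Dv T (a • u + b • v) p = C a * Dv T u p + C b * Dv T v p := by
  rw [Dv_apply, Dv_apply, Dv_apply, Psi_coeff_one, Psi_coeff_one, Psi_coeff_one, Finset.mul_sum,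
    Finset.mul_sum, ← Finset.sum_add_distrib]
  refine Finset.sum_congr rfl fun k _ => ?_
  show C (a * u k + b * v k) * _ = _
  rw [C_add, C_mul, C_mul]
  ring

theorem Dv_lf {n j : ℕ} (T : Matrix (Fin n) (Fin j) ℂ) (u w : Fin n → ℂ)
    (hw : Matrix.vecMul w T = 0) (g : Pol n) : Dv T u (lf w * g) = C (w ⬝ᵥ u) * res T g := by
  have h1 : Psi T u (lf w) = Polynomial.C (C (w ⬝ᵥ u)) * Polynomial.X := by
    have h2 : Psi T u (lf w) = Polynomial.C (lf (Matrix.vecMul w T)) +
        Polynomial.C (C (w ⬝ᵥ u)) * Polynomial.X := by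
      have h3 : ∀ k, Psi T u (C (w k) * X k) = Polynomial.C (C (w k) * lf (T k)) +
          Polynomial.C (C (w k * u k)) * Polynomial.X := by
        intro k
        have h4 : Psi T u (C (w k)) = Polynomial.C (C (w k)) := aeval_C _ _
        rw [map_mul, Psi_X, h4, mul_add, C_mul, Polynomial.C_mul, Polynomial.C_mul, mul_assoc]
      rw [← res_lf]
      unfold lf
      rw [map_sum, map_sum, Finset.sum_congr rfl fun k _ => h3 k, Finset.sum_add_distrib,
        ← Finset.sum_mul, ← map_sum, ← map_sum, ← map_sum]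
      congr 1
      · congr 1
        refine Finset.sum_congr rfl fun k _ => ?_
        rw [map_mul, res_X, algHom_C]
        rfl
    rw [h2, hw, Pool.Agent.W2helper66.SOS.lf_zero, Polynomial.C_0, zero_add]
  rw [Dv_apply, map_mul, h1, mul_assoc, mul_comm Polynomial.X, Polynomial.coeff_C_mul,
    Polynomial.coeff_mul_X, Psi_coeff_zero]

end Pool.Agent.W2helper12.SOS2
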